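import Pool.Agent.Helper74.HG.GoalsB
import Pool.Agent.Helper84.HG.WD

/-!
# Project HG (MP_aa7fc1_ag): packet HG-WDB (graded words to bipartite hypergraphs)
-/

set_option autoImplicit false

namespace Pool.Agent.Helper36.HG.WDB

open MvPolynomial Pool.Agent.Helper74.HG Pool.Agent.Helper84.HG.WD

/-- The grading of the new variables. -/
def gc {σ : Type} (c : σ → Bool) (g : Bool) : Option (Option σ) → Bool
  | none => g
  | some none => !g
  | some (some i) => c i

theorem gc_none {σ : Type} (c : σ → Bool) (g : Bool) : gc c g none = g := rfl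

theorem gc_l {σ : Type} (c : σ → Bool) (g : Bool) : gc c g (some none) = !g := rfl

theorem gc_em {σ : Type} (c : σ → Bool) (g : Bool) (i : σ) : gc c g (em σ i) = c i := rfl

/-- Allowed graded words. -/
def ValG {σ : Type} (c : σ → Bool) (L : List (ℤ × List σ)) : Prop :=
  ∀ p ∈ L, (p.1 = 1 ∨ p.1 = -1) ∧ 2 ≤ p.2.length ∧ p.2.countP c = 1

/-- `F` reduces to a bipartite hypergraph polynomial. -/
def GoodB {σ : Type} (F : MvPolynomial σ ℤ) : Prop :=
  ∃ (τ : Type) (_ : Fintype τ) (c' : τ → Bool) (H' : Finset (Finset τ)), Cub H' ∧ Gr c' H' ∧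
    Red F (hyp H')

theorem GoodB.of_red (htr : TRA) {σ τ : Type} {F : MvPolynomial σ ℤ} {G : MvPolynomial τ ℤ}
    (h : Red F G) (hG : GoodB G) : GoodB F := by
  obtain ⟨υ, i, c, H', h1, h2, h3⟩ := hG
  exact ⟨υ, i, c, H', h1, h2, htr _ _ _ h h3⟩

theorem gr_up {σ : Type} {c : σ → Bool} {H : Finset (Finset σ)} (g : Bool) (hG : Gr c H) :
    Gr (gc c g) (upH H) := by
  intro e he
  unfold upH at he
  rw [Finset.mem_map] at he
  obtain ⟨e', he', rfl⟩ := he
  show ((e'.map (em σ)).filter (fun i => gc c g i = true)).card = 1
  rw [Finset.filter_map, Finset.card_map]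
  exact hG e' he'

theorem gr_ins {σ : Type} {c : σ → Bool} {H : Finset (Finset σ)} (hG : Gr c H) {e : Finset σ}
    (he : (e.filter (fun i => c i = true)).card = 1) : Gr c (ins e H) := by
  intro e' he'
  rcases mem_ins.1 he' with rfl | h
  · exact he
  · exact hG e' h

theorem card_pr_filter {τ : Type} (c : τ → Bool) {a b : τ} (h : a ≠ b) (hc : c b = !(c a)) :
    ((pr a b).filter (fun i => c i = true)).card = 1 := by
  rw [Finset.card_eq_one]
  cases ha : c a with
  | true =>
    refine ⟨a, ?_⟩
    ext x
    rw [Finset.mem_filter, mem_pr, Finset.mem_singleton]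
    constructor
    · rintro ⟨rfl | rfl, hx⟩
      · rfl
      · rw [hc, ha] at hx
        exact absurd hx (by decide)
    · rintro rfl
      exact ⟨Or.inl rfl, ha⟩
  | false =>
    refine ⟨b, ?_⟩
    ext x
    rw [Finset.mem_filter, mem_pr, Finset.mem_singleton]
    constructor
    · rintro ⟨rfl | rfl, hx⟩
      · rw [ha] at hx
        exact absurd hx (by decide)
      · rfl
    · rintro rfl
      refine ⟨Or.inr rfl, ?_⟩
      rw [hc, ha]
      rfl

theorem gr_H0 {σ : Type} {c : σ → Bool} {H : Finset (Finset σ)} (g : Bool) (hG : Gr c H) :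
    Gr (gc c g) (H0 H) :=
  gr_ins (gr_up g hG) (card_pr_filter (gc c g) none_ne rfl)

theorem gr_H1 {σ : Type} {c : σ → Bool} {H : Finset (Finset σ)} (hG : Gr c H) (i : σ) :
    Gr (gc c (c i)) (H1 H i) :=
  gr_ins (gr_H0 (c i) hG) (card_pr_filter (gc c (c i)) (em_ne i) rfl)

theorem countP_up {σ : Type} (c : σ → Bool) (g : Bool) (u : List σ) :
    (u.map (em σ)).countP (gc c g) = u.countP c := by
  rw [List.countP_map]
  rfl

theorem countP_step {σ : Type} (c : σ → Bool) (i : σ) (y : List σ) :
    ((none : Option (Option σ)) :: y.map (em σ)).countP (gc c (c i)) = (i :: y).countP c := by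
  rw [List.countP_cons, List.countP_cons, countP_up, gc_none]

theorem valG_up {σ : Type} {c : σ → Bool} {L : List (ℤ × List σ)} (g : Bool) (hL : ValG c L) :
    ValG (gc c g) (upL L) := by
  intro p hp
  unfold upL at hp
  rw [List.mem_map] at hp
  obtain ⟨q, hq, rfl⟩ := hp
  have h := hL q hq
  refine ⟨h.1, ?_, ?_⟩
  · show 2 ≤ (q.2.map (em σ)).length
    rw [List.length_map]
    exact h.2.1
  · show (q.2.map (em σ)).countP (gc c g) = 1
    rw [countP_up]
    exact h.2.2

theorem filter_toF {τ : Type} (c : τ → Bool) {l : List τ} (h : l.Nodup) :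
    ((toF l).filter (fun i => c i = true)).card = l.countP c := by
  have e : (toF l).filter (fun i => c i = true) = toF (l.filter c) := by
    ext x
    rw [Finset.mem_filter, mem_toF, mem_toF, List.mem_filter]
  rw [e, card_toF (h.filter _), List.countP_eq_length_filter]

/-- A step which ends with an edge. -/
theorem S2' (htr : TRA) (hst : STE) {σ : Type} [Fintype σ] {c : σ → Bool} {H : Finset (Finset σ)}
    (hH : Cub H) (hG : Gr c H) {L : List (ℤ × List σ)} (hL : ValG c L) (i : σ) (y : List σ)
    (hy : y.Nodup) (hl : y.length = 1 ∨ y.length = 2) (hc : (i :: y).countP c = 1)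
    (hrest : ∀ (τ : Type) [Fintype τ] (c' : τ → Bool) (H' : Finset (Finset τ))
      (L' : List (ℤ × List τ)), Cub H' → Gr c' H' →
      ValG c' L' → meas L' = meas L → GoodB (hyp H' + (L'.map wp).sum)) :
    GoodB (hyp H + (((-1, i :: y) :: L).map wp).sum) := by
  have hne : y ≠ [] := by
    rintro rfl
    simp at hl
  refine GoodB.of_red htr (S1 hst H L (-1) i y hne) ?_
  have hnd : ((none : Option (Option σ)) :: y.map (em σ)).Nodup := by
    rw [List.nodup_cons]
    refine ⟨?_, hy.map (em σ).injective⟩
    rw [List.mem_map]
    rintro ⟨a, _, ha⟩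
    rw [em_apply] at ha
    cases ha
  have hln : (some none : Option (Option σ)) ∉ toF ((none : Option (Option σ)) :: y.map (em σ)) := by
    rw [mem_toF, List.mem_cons, List.mem_map]
    rintro (h | ⟨a, _, ha⟩)
    · cases h
    · rw [em_apply] at ha
      cases ha
  have hnm : toF ((none : Option (Option σ)) :: y.map (em σ)) ∉ H1 H i := by
    unfold H1
    intro h
    rcases mem_ins.1 h with h | h
    · rw [h] at hln
      exact hln (mem_pr.2 (Or.inr rfl))
    · rcases mem_ins.1 h with h | h
      · rw [h] at hln
        exact hln (mem_pr.2 (Or.inr rfl))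
      · exact (none_not_mem h).1 (mem_toF.2 (List.mem_cons_self ..))
  have e : hyp (H1 H i) + (((- -1, none :: y.map (em σ)) :: upL L).map wp).sum =
      hyp (ins (toF ((none : Option (Option σ)) :: y.map (em σ))) (H1 H i)) +
        ((upL L).map wp).sum := by
    rw [hyp_ins hnm, prod_toF hnd, sum_cons]
    unfold wp
    rw [neg_neg, C_1]
    ring
  rw [e]
  refine hrest _ (gc c (c i)) _ _ (cub_ins (cub_H1 hH i) ?_) (gr_ins (gr_H1 hG i) ?_)
    (valG_up _ hL) (meas_up L)
  · rw [card_toF hnd, List.length_cons, List.length_map]
    omega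
  · rw [filter_toF _ hnd, countP_step]
    exact hc

theorem main' (htr : TRA) (hst : STE) (his : ISO) : ∀ (n : ℕ) (σ : Type) [Fintype σ]
    (c : σ → Bool) (H : Finset (Finset σ)) (L : List (ℤ × List σ)), Cub H → Gr c H → ValG c L →
    meas L ≤ n → GoodB (hyp H + (L.map wp).sum) := by
  intro n
  induction n using Nat.strong_induction_on with
  | _ n ih =>
    intro σ _ col H L hH hG hL hn
    cases L with
    | nil =>
      refine ⟨σ, inferInstance, col, H, hH, hG, ?_⟩
      rw [List.map_nil, List.sum_nil, add_zero]
      exact his AlgEquiv.refl (fun i => constantCoeff_X _ i) (hyp H)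
    | cons p L =>
      obtain ⟨c, u⟩ := p
      have hp := hL (c, u) (List.mem_cons_self ..)
      have hL' : ValG col L := fun q hq => hL q (List.mem_cons_of_mem _ hq)
      have hm : meas ((c, u) :: L) = 3 ^ u.length + meas L := by
        unfold meas
        rw [List.map_cons, List.sum_cons]
      have hpos : 0 < 3 ^ u.length := Nat.pow_pos (by norm_num)
      have hrest : ∀ (τ : Type) [Fintype τ] (c' : τ → Bool) (H' : Finset (Finset τ))
          (L' : List (ℤ × List τ)),
          Cub H' → Gr c' H' → ValG c' L' → meas L' = meas L →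
            GoodB (hyp H' + (L'.map wp).sum) := by
        intro τ _ c' H' L' h1 h2 h3 h4
        exact ih (meas L) (by omega) τ c' H' L' h1 h2 h3 h4.le
      obtain ⟨hc, hlen, hcnt⟩ := hp
      simp only at hc hlen hcnt
      match u, hlen, hcnt with
      | [i, j], _, hcnt =>
        rcases hc with rfl | rfl
        · refine GoodB.of_red htr (S1 hst H L 1 i [j] (by simp)) ?_
          refine S2' htr hst (cub_H1 hH i) (gr_H1 hG i) (valG_up _ hL') none [em σ j] (by simp)
            (by simp) ?_ ?_
          · exact (countP_step col i [j]).trans hcnt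
          · intro τ _ c' H' L' h1 h2 h3 h4
            exact hrest τ c' H' L' h1 h2 h3 (h4.trans (meas_up L))
        · exact S2' htr hst hH hG hL' i [j] (by simp) (by simp) hcnt hrest
      | [i, j, k], _, hcnt =>
        have hcnt2 : (em σ j :: [none, em σ k]).countP (gc col (col i)) = 1 := by
          rw [← hcnt, ← countP_step col i [j, k]]
          exact (List.Perm.swap none (em σ j) [em σ k]).countP_eq _
        rcases hc with rfl | rfl
        · refine GoodB.of_red htr (S1 hst H L 1 i [j, k] (by simp)) ?_
          have e : (((-1, none :: [j, k].map (em σ)) :: upL L).map wp).sum =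
              (((-1, em σ j :: [none, em σ k]) :: upL L).map wp).sum := by
            rw [sum_cons, sum_cons]
            congr 1
            exact wp_swap _ _ _ _
          rw [e]
          refine S2' htr hst (cub_H1 hH i) (gr_H1 hG i) (valG_up _ hL') (em σ j) [none, em σ k] ?_
            (by simp) hcnt2 ?_
          · simp [em_apply]
          · intro τ _ c' H' L' h1 h2 h3 h4
            exact hrest τ c' H' L' h1 h2 h3 (h4.trans (meas_up L))
        · refine GoodB.of_red htr (S1 hst H L (-1) i [j, k] (by simp)) ?_
          have e : (((- -1, none :: [j, k].map (em σ)) :: upL L).map wp).sum =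
              (((1, em σ j :: [none, em σ k]) :: upL L).map wp).sum := by
            rw [sum_cons, sum_cons, neg_neg]
            congr 1
            exact wp_swap _ _ _ _
          rw [e]
          refine GoodB.of_red htr (S1 hst (H1 H i) (upL L) 1 (em σ j) [none, em σ k] (by simp)) ?_
          refine S2' htr hst (cub_H1 (cub_H1 hH i) _) (gr_H1 (gr_H1 hG i) _)
            (valG_up _ (valG_up _ hL')) none [em _ none, em _ (em σ k)] ?_ (by simp) ?_ ?_
          · simp [em_apply]
          · exact (countP_step (gc col (col i)) (em σ j) [none, em σ k]).trans hcnt2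
          · intro τ _ c' H' L' h1 h2 h3 h4
            exact hrest τ c' H' L' h1 h2 h3 (h4.trans ((meas_up _).trans (meas_up L)))
      | i :: j :: a :: b :: v, _, hcnt =>
        refine GoodB.of_red htr (S3 hst H L c i j (a :: b :: v) (by simp)) ?_
        have hlt : meas ((1, [em σ i, em σ j, some none]) ::
            (-c, none :: (a :: b :: v).map (em σ)) :: upL L) < n := by
          have e1 : meas ((1, [em σ i, em σ j, some none]) ::
              (-c, none :: (a :: b :: v).map (em σ)) :: upL L) =
              3 ^ 3 + (3 ^ (v.length + 3) + meas L) := by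
            rw [← meas_up L]
            unfold meas
            rw [List.map_cons, List.sum_cons, List.map_cons, List.sum_cons]
            simp only [List.length_cons, List.length_nil, List.length_map]
          have e2 : 3 ^ (i :: j :: a :: b :: v).length = 81 * 3 ^ v.length := by
            simp only [List.length_cons]
            ring
          have e3 : 3 ^ (v.length + 3) = 27 * 3 ^ v.length := by ring
          have e4 : 1 ≤ 3 ^ v.length := Nat.one_le_pow _ _ (by norm_num)
          rw [e1, e3]
          rw [hm, e2] at hn
          omega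
        rw [List.countP_cons, List.countP_cons] at hcnt
        refine ih _ hlt _ (gc col (col i || col j)) _ _ ?_ ?_ ?_ le_rfl
        · exact cub_H0 hH
        · exact gr_H0 _ hG
        · intro q hq
          rcases List.mem_cons.1 hq with rfl | hq
          · refine ⟨Or.inl rfl, by simp, ?_⟩
            show ([em σ i, em σ j, some none] : List (Option (Option σ))).countP
              (gc col (col i || col j)) = 1
            rw [List.countP_cons, List.countP_cons, List.countP_cons, List.countP_nil, gc_em, gc_em,
              gc_l]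
            cases hi : col i <;> cases hj : col j <;> simp [hi, hj] at hcnt ⊢
          · rcases List.mem_cons.1 hq with rfl | hq
            · refine ⟨?_, by simp, ?_⟩
              · rcases hc with rfl | rfl
                · exact Or.inr rfl
                · exact Or.inl (neg_neg 1)
              · show ((none : Option (Option σ)) :: (a :: b :: v).map (em σ)).countP
                  (gc col (col i || col j)) = 1
                rw [List.countP_cons, countP_up, gc_none]
                cases hi : col i <;> cases hj : col j <;> simp only [hi, hj] at hcnt ⊢ <;>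
                  simp at hcnt ⊢ <;> omega
            · exact valG_up _ hL' q hq

/-- Packet HG-WDB. -/
theorem t (htr : TRA) (hst : STE) (his : ISO) : WDB := by
  intro σ _ c H L hH hG hL
  exact main' htr hst his (meas L) σ c H L hH hG hL le_rfl

end Pool.Agent.Helper36.HG.WDB
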